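import Pool.Agent.T9h45.LD.Spec
import Pool.Agent.T9h41.CP.Part

/-!
# Piece T3 of `T9h45/LD/Spec.lean` (after `T9h41/CP/Part.lean`)
-/

set_option autoImplicit false

namespace Pool.Agent.T9h89.LD

open Finset Classical Pool.T9h45.HY Pool.T9h45.CP Pool.T9h45.LD Pool.Agent.T9h41.CP

theorem t3 : ST3 := by
  intro V _ G cl mv S₀ nu tau htau
  set w : V → ℤ := fun v => (tau v : ℤ) - nu v with hw
  set Ph : (V → Bool) → ℤ := fun s => Ps (Mt G cl) (sg s) + 2 * ∑ v, w v * sg s v with hPh
  set A : Finset (V → Bool) := univ.filter fun s => ∀ v, ¬ mv v → (s v = true ↔ S₀ v) with hA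
  have hAne : A.Nonempty := ⟨fun v => decide (S₀ v), by simp [hA]⟩
  obtain ⟨s, hsA, hs⟩ := A.exists_min_image Ph hAne
  have hsA' : ∀ v, ¬ mv v → (s v = true ↔ S₀ v) := (mem_filter.1 hsA).2
  have hupd : ∀ (s : V → Bool) (x : V), s ∈ A → mv x → Function.update s x (!s x) ∈ A := by
    intro s x hs hx
    refine mem_filter.2 ⟨mem_univ _, fun v hv => ?_⟩
    have hne : v ≠ x := by rintro rfl; exact hv hx
    rw [Function.update_of_ne hne]
    exact (mem_filter.1 hs).2 v hv
  have hMM : ∀ x, Mt G cl x x = 1 := by
    intro x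
    unfold Pool.Agent.T9h41.CP.Mt
    rw [if_pos rfl]
  have hone : ∀ x, mv x → sg s x * (L (Mt G cl) (sg s) x + w x) ≤ 1 := by
    intro x hx
    have h1 := hs (Function.update s x (!s x)) (hupd s x hsA hx)
    simp only [hPh] at h1
    rw [sg_upd, Ps_upd _ (Mt_symm G cl), hMM, sum_upd] at h1
    have h2 := sg_sq s x
    nlinarith
  have htwo : ∀ x y, mv x → mv y → s x = true → s y = false → cl x = cl y →
      sg s x * L (Mt G cl) (sg s) x + sg s y * L (Mt G cl) (sg s) y + w x - w y ≤ 0 := by
    intro x y hmx hmy hx hy hxy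
    have hne : y ≠ x := by
      rintro rfl
      rw [hx] at hy
      exact Bool.noConfusion hy
    have h1 := hs (Function.update (Function.update s x (!s x)) y
      (!(Function.update s x (!s x)) y)) (hupd _ y (hupd s x hsA hmx) hmy)
    simp only [hPh] at h1
    rw [sg_upd, Ps_upd _ (Mt_symm G cl), sg_upd, Ps_upd _ (Mt_symm G cl), L_upd,
      Function.update_of_ne hne, hMM, hMM, sum_upd, sum_upd, Function.update_of_ne hne] at h1
    have h2 : Mt G cl y x = 1 := by
      unfold Pool.Agent.T9h41.CP.Mt
      rw [if_pos hxy.symm]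
    have h3 : sg s x = 1 := by
      unfold sg
      rw [if_pos hx]
    have h4 : sg s y = -1 := by
      unfold sg
      rw [hy]
      rfl
    rw [h2, h3, h4] at h1
    rw [h3, h4]
    linarith
  refine ⟨fun v => s v = true, fun v hv => hsA' v hv, ?_, ?_, ?_⟩
  · intro x hmx hx
    have h1 := hone x hmx
    rw [mul_add, L_eq] at h1
    have h3 : sg s x = 1 := by
      unfold sg
      rw [if_pos hx]
    rw [h3] at h1
    simp only [hw] at h1
    have h7 : (2 * cO G (fun v => s v = true) cl x + cA (fun v => s v = true) cl x + tau x : ℤ) ≤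
        (cE G cl x : ℤ) + nu x + cB (fun v => s v = true) cl x + 1 := by
      linarith
    exact_mod_cast h7
  · intro y hmy hy
    have hy' : s y = false := by simpa using hy
    have h1 := hone y hmy
    rw [mul_add, L_eq] at h1
    have h4 : sg s y = -1 := by
      unfold sg
      rw [hy']
      rfl
    rw [h4] at h1
    simp only [hw] at h1
    have h7 : (2 * cO G (fun v => s v = true) cl y + nu y + cB (fun v => s v = true) cl y : ℤ) ≤
        (cE G cl y : ℤ) + cA (fun v => s v = true) cl y + tau y + 1 := by
      linarith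
    exact_mod_cast h7
  · intro x y hmx hmy hx hy hxy
    have hy' : s y = false := by simpa using hy
    have h1 := htwo x y hmx hmy hx hy' hxy
    rw [L_eq, L_eq] at h1
    have h3 : sg s x = 1 := by
      unfold sg
      rw [if_pos hx]
    have h4 : sg s y = -1 := by
      unfold sg
      rw [hy']
      rfl
    rw [h3, h4] at h1
    have h5 : cA (fun v => s v = true) cl x = cA (fun v => s v = true) cl y := by
      unfold cA
      rw [hxy]
    have h6 : cB (fun v => s v = true) cl x = cB (fun v => s v = true) cl y := by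
      unfold cB
      rw [hxy]
    have h8 : (tau x : ℤ) = tau y := by rw [htau x y hxy]
    rw [h5, h6] at h1
    simp only [hw] at h1
    have h7 : (2 * (cO G (fun v => s v = true) cl x + cO G (fun v => s v = true) cl y) + nu y : ℤ) ≤
        (cE G cl x : ℤ) + cE G cl y + nu x := by
      linarith
    exact_mod_cast h7

end Pool.Agent.T9h89.LD
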